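import Pool.Agent.K1H17.SC.Stm

/-! A factor over which the cover is not branched. -/

set_option autoImplicit false
set_option linter.overlappingInstances false

open Polynomial IntermediateField

namespace Pool.Agent.K1H30.SC

open Pool.Agent.K1H17.SC

theorem aeval_ne_zero {k L : Type} [Field k] [Field L] [Algebra k L] {ι : Type}
    {M E : IntermediateField k L} {T : Finset ι} {s : ℕ} {x : ι → L} {f : ι → k[X]}
    {A : Fin s → ι → ℤ} {m : Fin s → ℕ} {τ z : Fin s → L} (h : IsSC M E T x f A m τ z)
    {a : ι} (ha : a ∈ T) : aeval (x a) (f a) ≠ 0 := by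
  intro h0
  have h1 : Transcendental M (x a) := h.indep.transcendental ⟨a, ha⟩
  apply h1
  have h2 : f a ≠ 0 := by
    intro h3
    have := h.deg a ha
    rw [h3] at this
    simp at this
  have h4 : IsAlgebraic k (x a) := ⟨f a, h2, h0⟩
  exact h4.tower_top M

theorem t_UNB (hT : S_TRI) : S_UNB := by
  intro k L _ _ _ _ _ ι M E T s x f A m τ z h a ha hdvd
  classical
  set φ : L := aeval (x a) (f a) with hφ
  have hφ0 : φ ≠ 0 := aeval_ne_zero h ha
  set z' : Fin s → L := fun j => z j / φ ^ (A j a / m j) with hz'
  set E' : IntermediateField k L := M ⊔ adjoin k (x '' (T.erase a : Finset ι)) ⊔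
    adjoin k (Set.range z') with hE'
  have hsub : T.erase a ⊆ T := Finset.erase_subset _ _
  have hSC : IsSC M E' (T.erase a) x f A m τ z' := by
    refine ⟨?_, fun i hi => h.deg i (hsub hi), fun i hi => h.sqf i (hsub hi), h.pos, h.mem, h.ne0,
      ?_, fun j i hi => h.dvd j i (hsub hi), rfl⟩
    · have h1 := h.indep.comp (fun i : (T.erase a : Finset ι) => (⟨i.1, hsub i.2⟩ : T))
        (fun i j hij => by
          have := congrArg Subtype.val hij
          exact Subtype.ext this)
      exact h1
    · intro j
      have h1 : z' j ^ m j = z j ^ m j / φ ^ A j a := by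
        simp only [hz']
        rw [div_pow, ← zpow_natCast (φ ^ (A j a / m j)), ← zpow_mul,
          Int.ediv_mul_cancel (hdvd j)]
      rw [h1, h.root j, ← Finset.mul_prod_erase T _ ha]
      have h2 : φ ^ A j a ≠ 0 := zpow_ne_zero _ hφ0
      rw [← hφ]
      field_simp
  have hcard : (T.erase a).card + 1 = T.card := Finset.card_erase_add_one ha
  have hxE : ∀ i ∈ T, x i ∈ E := by
    intro i hi
    rw [← h.gen]
    exact (le_sup_left (a := M ⊔ adjoin k (x '' T)) (b := adjoin k (Set.range z)))
      ((le_sup_right (a := M) (b := adjoin k (x '' T))) (subset_adjoin k _ ⟨i, hi, rfl⟩))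
  have hzE : ∀ j, z j ∈ E := by
    intro j
    rw [← h.gen]
    exact (le_sup_right (a := M ⊔ adjoin k (x '' T)) (b := adjoin k (Set.range z)))
      (subset_adjoin k _ ⟨j, rfl⟩)
  have hME : M ≤ E := by
    rw [← h.gen]
    exact le_sup_left.trans le_sup_left
  have hφE : φ ∈ E := by
    have h1 : aeval (x a) (f a) ∈ Algebra.adjoin k {x a} := aeval_mem_adjoin_singleton k (x a)
    exact (Algebra.adjoin_le (S := E.toSubalgebra) (by
      intro y hy
      rw [Set.mem_singleton_iff] at hy
      rw [hy]
      exact hxE a ha)) h1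
  set t : Fin 1 → L := ![x a] with ht
  set G : IntermediateField k L := E' ⊔ adjoin k (Set.range t) with hG
  have hxa : x a ∈ G := (le_sup_right (a := E') (b := adjoin k (Set.range t)))
    (subset_adjoin k _ ⟨0, rfl⟩)
  have hφG : φ ∈ G := by
    have h1 : aeval (x a) (f a) ∈ Algebra.adjoin k {x a} := aeval_mem_adjoin_singleton k (x a)
    exact (Algebra.adjoin_le (S := G.toSubalgebra) (by
      intro y hy
      rw [Set.mem_singleton_iff] at hy
      rw [hy]
      exact hxa)) h1
  have hgen : G = E := by
    apply le_antisymm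
    · rw [hG, hE']
      refine sup_le (sup_le (sup_le hME ?_) ?_) ?_
      · rw [adjoin_le_iff]
        rintro _ ⟨i, hi, rfl⟩
        exact hxE i (hsub hi)
      · rw [adjoin_le_iff]
        rintro _ ⟨j, rfl⟩
        exact div_mem (hzE j) (zpow_mem hφE _)
      · rw [adjoin_le_iff]
        rintro _ ⟨j, rfl⟩
        have hj : j = 0 := Subsingleton.elim _ _
        subst hj
        exact hxE a ha
    · rw [← h.gen]
      refine sup_le (sup_le ?_ ?_) ?_
      · exact (le_sup_left.trans le_sup_left).trans le_sup_left
      · rw [adjoin_le_iff]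
        rintro _ ⟨i, hi, rfl⟩
        by_cases hia : i = a
        · rw [hia]; exact hxa
        · have h1 : x i ∈ adjoin k (x '' (T.erase a : Finset ι)) :=
            subset_adjoin k _ ⟨i, Finset.mem_coe.mpr (Finset.mem_erase.mpr ⟨hia, hi⟩), rfl⟩
          exact (((le_sup_right (a := M)).trans le_sup_left).trans le_sup_left) h1
      · rw [adjoin_le_iff]
        rintro _ ⟨j, rfl⟩
        have h1 : z' j ∈ G := (le_sup_right.trans (le_sup_left (a := E')
          (b := adjoin k (Set.range t)))) (subset_adjoin k _ ⟨j, rfl⟩)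
        have h2 : z j = z' j * φ ^ (A j a / m j) := by
          simp only [hz']
          rw [div_mul_cancel₀ _ (zpow_ne_zero _ hφ0)]
        show z j ∈ G
        rw [h2]
        exact mul_mem h1 (zpow_mem hφG _)
  exact ⟨T.erase a, 1, A, m, τ, z', E', t, hsub, hcard, le_rfl, hSC, hgen,
    hT k L ι M E E' T (T.erase a) s s 1 x f A m τ z A m τ z' t h hSC hsub hcard hgen⟩

end Pool.Agent.K1H30.SC
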